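import Pool.Agent.H572R4.Stmts

set_option autoImplicit false

namespace Pool.Agent.H647R4.D56

open Pool.Agent.Helper446 Pool.Agent.Helper446.Defs Pool.Agent.Helper446.CB Pool.Agent.H572R4

theorem getS (x : ℕ → Bool) (n i : ℕ) :
    (seg x n)[i]? = some true ↔ i < n ∧ x i = true := by
  by_cases h : i < n
  · rw [seg_getElem? x h]
    simp [h]
  · rw [List.getElem?_eq_none (by rw [seg_length]; omega)]
    simp [h]

theorem cget {α : Type} [Primcodable α] {f : α → List Bool} {g : α → ℕ} (hf : Computable f)
    (hg : Computable g) : REPred fun a => (f a)[g a]? = some true :=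
  RE.eq (Computable.list_getElem?.comp hf hg) (Computable.const _)

theorem taskD5 : TaskD5 := by
  unfold TaskD5
  rw [isPi01_iff]
  refine ⟨{σ | ∃ i, ∃ m, σ[i]? = some true ∧ σ[i + 1 + m]? = some true}, ?_, ?_⟩
  · refine RE.exN (p := fun (σ : List Bool) i =>
      ∃ m, σ[i]? = some true ∧ σ[i + 1 + m]? = some true) ?_
    refine RE.exN (p := fun (x : List Bool × ℕ) m =>
      x.1[x.2]? = some true ∧ x.1[x.2 + 1 + m]? = some true) ?_
    exact RE.and (cget (by fun_prop) (by fun_prop)) (cget (by fun_prop) (by fun_prop))
  · ext x
    simp only [pS, Set.mem_ofPred_eq]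
    constructor
    · rintro (rfl | ⟨j, rfl⟩) n ⟨i, m, h1, h2⟩
      · rw [getS] at h1
        simp [zz] at h1
      · rw [getS] at h1 h2
        simp only [xp, decide_eq_true_eq] at h1 h2
        omega
    · intro h
      by_cases h0 : ∃ j, x j = true
      · obtain ⟨j, hj⟩ := h0
        right
        refine ⟨j, ?_⟩
        funext i
        by_cases hij : i = j
        · subst hij
          rw [hj]
          simp [xp]
        · have hi : x i = false := by
            by_contra hcon
            have hi : x i = true := by simpa using hcon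
            rcases lt_or_gt_of_ne hij with hlt | hlt
            · exact h (j + 1) ⟨i, j - i - 1, (getS _ _ _).2 ⟨by omega, hi⟩,
                (getS _ _ _).2 ⟨by omega, by
                  have : i + 1 + (j - i - 1) = j := by omega
                  rw [this]; exact hj⟩⟩
            · exact h (i + 1) ⟨j, i - j - 1, (getS _ _ _).2 ⟨by omega, hj⟩,
                (getS _ _ _).2 ⟨by omega, by
                  have : j + 1 + (i - j - 1) = i := by omega
                  rw [this]; exact hi⟩⟩
          rw [hi]
          simp [xp, hij]
      · left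
        funext i
        by_contra hcon
        exact h0 ⟨i, by simpa [zz] using hcon⟩

theorem mem_qS (C : Set ℕ) (x : ℕ → Bool) : x ∈ qS C ↔
    (∀ i m l, x i = true → x (i + 1 + m) = true → x (i + 1 + m + 1 + l) = true → False) ∧
    (∀ j m, x j = true → x (j + 1 + m) = true → m.unpair.1 < j.unpair.1) ∧
    (∀ j m, x j = true → x (j + 1 + m) = true → m.unpair.2 ∈ C) := by
  constructor
  · rintro ((rfl | ⟨j, rfl⟩) | ⟨j, m, h1, h2, rfl⟩)
    · simp [zz]
    · simp only [xp, decide_eq_true_eq]
      refine ⟨fun i m l a b c => by omega, fun j' m a b => by omega, fun j' m a b => by omega⟩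
    · simp only [qp, decide_eq_true_eq]
      refine ⟨fun i m' l a b c => by omega, fun j' m' a b => ?_, fun j' m' a b => ?_⟩
      · have e1 : j' = j := by omega
        have e2 : m' = m := by omega
        rw [e1, e2]
        exact h1
      · have e2 : m' = m := by omega
        rw [e2]
        exact h2
  · rintro ⟨h3, h1, h2⟩
    by_cases h0 : ∃ j m, x j = true ∧ x (j + 1 + m) = true
    · obtain ⟨j, m, hj, hm⟩ := h0
      right
      refine ⟨j, m, h1 j m hj hm, h2 j m hj hm, ?_⟩
      funext i
      by_cases hij : i = j ∨ i = j + 1 + m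
      · have hi : x i = true := by
          rcases hij with rfl | rfl
          · exact hj
          · exact hm
        rw [hi]
        simp only [qp]
        exact (decide_eq_true hij).symm
      · have hi : x i = false := by
          by_contra hcon
          have hi : x i = true := by simpa using hcon
          push Not at hij
          rcases lt_or_gt_of_ne hij.1 with hlt | hlt
          · refine h3 i (j - i - 1) m hi ?_ ?_
            · have : i + 1 + (j - i - 1) = j := by omega
              rw [this]; exact hj
            · have : i + 1 + (j - i - 1) + 1 + m = j + 1 + m := by omega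
              rw [this]; exact hm
          · rcases lt_or_gt_of_ne hij.2 with hlt2 | hlt2
            · refine h3 j (i - j - 1) (j + 1 + m - i - 1) hj ?_ ?_
              · have : j + 1 + (i - j - 1) = i := by omega
                rw [this]; exact hi
              · have : j + 1 + (i - j - 1) + 1 + (j + 1 + m - i - 1) = j + 1 + m := by omega
                rw [this]; exact hm
            · refine h3 j m (i - (j + 1 + m) - 1) hj hm ?_
              have : j + 1 + m + 1 + (i - (j + 1 + m) - 1) = i := by omega
              rw [this]; exact hi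
        rw [hi]
        simp only [qp]
        exact (decide_eq_false hij).symm
    · left
      by_cases h0' : ∃ j, x j = true
      · obtain ⟨j, hj⟩ := h0'
        right
        refine ⟨j, ?_⟩
        funext i
        by_cases hij : i = j
        · subst hij
          rw [hj]
          simp [xp]
        · have hi : x i = false := by
            by_contra hcon
            have hi : x i = true := by simpa using hcon
            rcases lt_or_gt_of_ne hij with hlt | hlt
            · exact h0 ⟨i, j - i - 1, hi, by
                have : i + 1 + (j - i - 1) = j := by omega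
                rw [this]; exact hj⟩
            · exact h0 ⟨j, i - j - 1, hj, by
                have : j + 1 + (i - j - 1) = i := by omega
                rw [this]; exact hi⟩
          rw [hi]
          simp [xp, hij]
      · left
        funext i
        by_contra hcon
        exact h0' ⟨i, by simpa [zz] using hcon⟩

theorem taskD6 : TaskD6 := by
  intro C hC
  rw [isPi01_iff]
  refine ⟨{σ | (∃ i, ∃ m, ∃ l, σ[i]? = some true ∧ σ[i + 1 + m]? = some true ∧
      σ[i + 1 + m + 1 + l]? = some true) ∨
    (∃ j, ∃ m, σ[j]? = some true ∧ σ[j + 1 + m]? = some true ∧ j.unpair.1 ≤ m.unpair.1) ∨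
    (∃ j, ∃ m, σ[j]? = some true ∧ σ[j + 1 + m]? = some true ∧ m.unpair.2 ∉ C)}, ?_, ?_⟩
  · refine RE.or ?_ (RE.or ?_ ?_)
    · refine RE.exN (p := fun (σ : List Bool) i => ∃ m, ∃ l, σ[i]? = some true ∧
        σ[i + 1 + m]? = some true ∧ σ[i + 1 + m + 1 + l]? = some true) ?_
      refine RE.exN (p := fun (x : List Bool × ℕ) m => ∃ l, x.1[x.2]? = some true ∧
        x.1[x.2 + 1 + m]? = some true ∧ x.1[x.2 + 1 + m + 1 + l]? = some true) ?_
      refine RE.exN (p := fun (x : (List Bool × ℕ) × ℕ) l => x.1.1[x.1.2]? = some true ∧
        x.1.1[x.1.2 + 1 + x.2]? = some true ∧ x.1.1[x.1.2 + 1 + x.2 + 1 + l]? = some true) ?_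
      exact RE.and (cget (by fun_prop) (by fun_prop)) (RE.and (cget (by fun_prop) (by fun_prop))
        (cget (by fun_prop) (by fun_prop)))
    · refine RE.exN (p := fun (σ : List Bool) j => ∃ m, σ[j]? = some true ∧
        σ[j + 1 + m]? = some true ∧ j.unpair.1 ≤ m.unpair.1) ?_
      refine RE.exN (p := fun (x : List Bool × ℕ) m => x.1[x.2]? = some true ∧
        x.1[x.2 + 1 + m]? = some true ∧ x.2.unpair.1 ≤ m.unpair.1) ?_
      exact RE.and (cget (by fun_prop) (by fun_prop)) (RE.and (cget (by fun_prop) (by fun_prop))
        (RE.le (by fun_prop) (by fun_prop)))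
    · refine RE.exN (p := fun (σ : List Bool) j => ∃ m, σ[j]? = some true ∧
        σ[j + 1 + m]? = some true ∧ m.unpair.2 ∉ C) ?_
      refine RE.exN (p := fun (x : List Bool × ℕ) m => x.1[x.2]? = some true ∧
        x.1[x.2 + 1 + m]? = some true ∧ m.unpair.2 ∉ C) ?_
      exact RE.and (cget (by fun_prop) (by fun_prop)) (RE.and (cget (by fun_prop) (by fun_prop))
        (RE.comp (p := fun k => k ∉ C) hC (f := fun x : (List Bool × ℕ) × ℕ => x.2.unpair.2)
          (by fun_prop)))
  · ext x
    rw [mem_qS]
    simp only [Set.mem_ofPred_eq, not_or, not_exists, not_and, getS]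
    constructor
    · rintro ⟨h3, h1, h2⟩ n
      refine ⟨fun i m l a b _ c => h3 i m l a.2 b.2 c, fun j m a b => ?_, fun j m a b => ?_⟩
      · have := h1 j m a.2 b.2
        omega
      · exact fun h => h (h2 j m a.2 b.2)
    · intro h
      refine ⟨fun i m l a b c => ?_, fun j m a b => ?_, fun j m a b => ?_⟩
      · exact (h (i + 1 + m + 1 + l + 1)).1 i m l ⟨by omega, a⟩ ⟨by omega, b⟩ (by omega) c
      · have := (h (j + 1 + m + 1)).2.1 j m ⟨by omega, a⟩ ⟨by omega, b⟩
        omega
      · by_contra hcon
        exact (h (j + 1 + m + 1)).2.2 j m ⟨by omega, a⟩ ⟨by omega, b⟩ hcon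

end Pool.Agent.H647R4.D56
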